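import Pool.Agent.W92.ET.Base

set_option autoImplicit false

open MeasureTheory Filter Topology Set

namespace Pool.Agent.W61.ET

open Pool.Agent.W92.ET

theorem phi0 : S_Phi0 := by
  intro y hy
  obtain ⟨D, hD⟩ : ∃ D, D = Real.sqrt (y ^ 2 - 1) := ⟨_, rfl⟩
  have hy1 : 0 < y ^ 2 - 1 := by nlinarith
  have hD2 : D ^ 2 = y ^ 2 - 1 := by rw [hD]; exact Real.sq_sqrt hy1.le
  have hD0 : 0 < D := by rw [hD]; exact Real.sqrt_pos.2 hy1
  have hDy : D < y := by nlinarith
  have hcosh : ∀ τ : ℝ, 0 < y + Real.cosh τ := fun τ => by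
    have := Real.one_le_cosh τ
    linarith
  have hderiv : ∀ τ : ℝ, HasDerivAt (fun τ : ℝ => (1 / D) * (Real.log (Real.exp τ + (y - D)) -
      Real.log (Real.exp τ + (y + D)))) (1 / (y + Real.cosh τ)) τ := by
    intro τ
    have he := Real.exp_pos τ
    have h1 : 0 < Real.exp τ + (y - D) := by linarith
    have h2 : 0 < Real.exp τ + (y + D) := by linarith
    have h3 : HasDerivAt (fun τ : ℝ => Real.log (Real.exp τ + (y - D)))
        (Real.exp τ / (Real.exp τ + (y - D))) τ :=
      ((Real.hasDerivAt_exp τ).add_const (y - D)).log h1.ne'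
    have h4 : HasDerivAt (fun τ : ℝ => Real.log (Real.exp τ + (y + D)))
        (Real.exp τ / (Real.exp τ + (y + D))) τ :=
      ((Real.hasDerivAt_exp τ).add_const (y + D)).log h2.ne'
    have h5 := (h3.sub h4).const_mul (1 / D)
    refine h5.congr_deriv ?_
    have h6 : Real.cosh τ = (Real.exp τ + 1 / Real.exp τ) / 2 := by
      rw [Real.cosh_eq, Real.exp_neg, one_div]
    have h7 : y + Real.cosh τ = ((Real.exp τ + (y - D)) * (Real.exp τ + (y + D))) /
        (2 * Real.exp τ) := by
      rw [h6]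
      field_simp
      nlinarith
    rw [h7]
    field_simp
    ring
  have hlim : Tendsto (fun τ : ℝ => (1 / D) * (Real.log (Real.exp τ + (y - D)) -
      Real.log (Real.exp τ + (y + D)))) atTop (𝓝 0) := by
    have h1 : Tendsto (fun τ : ℝ => Real.exp τ + (y + D)) atTop atTop :=
      tendsto_atTop_add_const_right _ _ Real.tendsto_exp_atTop
    have h2 : Tendsto (fun τ : ℝ => (2 * D) / (Real.exp τ + (y + D))) atTop (𝓝 0) :=
      tendsto_const_nhds.div_atTop h1
    have h3 : Tendsto (fun τ : ℝ => Real.log (1 - (2 * D) / (Real.exp τ + (y + D)))) atTop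
        (𝓝 (Real.log (1 - 0))) := (tendsto_const_nhds.sub h2).log (by norm_num)
    have h4 := h3.const_mul (1 / D)
    rw [sub_zero, Real.log_one, mul_zero] at h4
    refine h4.congr fun τ => ?_
    have he := Real.exp_pos τ
    have h1 : 0 < Real.exp τ + (y - D) := by linarith
    have h2 : 0 < Real.exp τ + (y + D) := by linarith
    rw [← Real.log_div h1.ne' h2.ne']
    congr 2
    field_simp
    ring
  have hcont : ContinuousWithinAt (fun τ : ℝ => (1 / D) * (Real.log (Real.exp τ + (y - D)) -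
      Real.log (Real.exp τ + (y + D)))) (Ici 0) 0 := (hderiv 0).continuousAt.continuousWithinAt
  have hpos : ∀ τ ∈ Ioi (0 : ℝ), 0 ≤ 1 / (y + Real.cosh τ) := fun τ _ =>
    (one_div_pos.2 (hcosh τ)).le
  have hint := integrableOn_Ioi_deriv_of_nonneg hcont (fun τ _ => hderiv τ) hpos hlim
  have hval := integral_Ioi_of_hasDerivAt_of_nonneg hcont (fun τ _ => hderiv τ) hpos hlim
  refine ⟨hint, ?_⟩
  have hPhi : Phi 0 y = (1 / D) * Real.log (y + D) := by
    have h1 : Phi 0 y = ∫ τ in Ioi (0 : ℝ), 1 / (y + Real.cosh τ) := by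
      unfold Phi
      simp only [zero_add, pow_one]
    rw [h1, hval, Real.exp_zero, zero_sub, ← mul_neg, neg_sub]
    congr 1
    have h2 : 0 < 1 + (y - D) := by linarith
    have h3 : 0 < 1 + (y + D) := by linarith
    rw [← Real.log_div h3.ne' h2.ne']
    congr 1
    rw [div_eq_iff h2.ne']
    nlinarith
  obtain ⟨c, hc⟩ : ∃ c, c = D / y := ⟨_, rfl⟩
  have hy0 : 0 < y := by linarith
  have hc0 : 0 < c := by rw [hc]; positivity
  have hc1 : c < 1 := by rw [hc, div_lt_one hy0]; exact hDy
  have hc2 : 1 - 1 / y ^ 2 = c ^ 2 := by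
    rw [hc, div_pow, hD2]
    field_simp
  have hrhs : ∫ s in (0 : ℝ)..1, 1 / (1 - (1 - 1 / y ^ 2) * s ^ 2) =
      (1 / (2 * c)) * (Real.log (1 + c) - Real.log (1 - c)) := by
    rw [hc2]
    have hb : ∀ s ∈ uIcc (0 : ℝ) 1, 0 < 1 + c * s ∧ 0 < 1 - c * s := by
      intro s hs
      rw [uIcc_of_le zero_le_one] at hs
      constructor
      · have := mul_nonneg hc0.le hs.1
        linarith
      · have : c * s ≤ c * 1 := mul_le_mul_of_nonneg_left hs.2 hc0.le
        linarith
    have h1 : ∀ s ∈ uIcc (0 : ℝ) 1, HasDerivAt (fun s : ℝ => (1 / (2 * c)) *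
        (Real.log (1 + c * s) - Real.log (1 - c * s))) (1 / (1 - c ^ 2 * s ^ 2)) s := by
      intro s hs
      obtain ⟨hb1, hb2⟩ := hb s hs
      have h3 : HasDerivAt (fun s : ℝ => 1 + c * s) c s := by
        simpa using ((hasDerivAt_id s).const_mul c).const_add 1
      have h4 : HasDerivAt (fun s : ℝ => 1 - c * s) (-c) s := by
        simpa using ((hasDerivAt_id s).const_mul c).const_sub 1
      have h5 := ((h3.log hb1.ne').sub (h4.log hb2.ne')).const_mul (1 / (2 * c))
      refine h5.congr_deriv ?_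
      have h6 : 1 - c ^ 2 * s ^ 2 = (1 + c * s) * (1 - c * s) := by ring
      rw [h6]
      field_simp
      ring
    have h2 : IntervalIntegrable (fun s : ℝ => 1 / (1 - c ^ 2 * s ^ 2)) volume 0 1 := by
      apply ContinuousOn.intervalIntegrable
      apply ContinuousOn.div continuousOn_const (by fun_prop)
      intro s hs
      obtain ⟨hb1, hb2⟩ := hb s hs
      have h6 : 1 - c ^ 2 * s ^ 2 = (1 + c * s) * (1 - c * s) := by ring
      rw [h6]
      exact (mul_pos hb1 hb2).ne'
    rw [intervalIntegral.integral_eq_sub_of_hasDerivAt h1 h2]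
    simp
  rw [hrhs, hPhi]
  have h1 : 0 < 1 + c := by linarith
  have h2 : 0 < 1 - c := by linarith
  rw [← Real.log_div h1.ne' h2.ne']
  have hyD : 0 < y + D := by linarith
  have hyD' : 0 < y - D := by linarith
  have h3 : (1 + c) / (1 - c) = (y + D) ^ 2 := by
    rw [hc, div_eq_iff (by rw [hc] at h2; exact h2.ne')]
    field_simp
    nlinarith
  rw [h3, Real.log_pow, hc]
  push_cast
  field_simp

end Pool.Agent.W61.ET
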